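import Pool.Agent.MVO.StmtsF
import Pool.Agent.Helper24_MVO.FCC

/-!
# Squad MVO, row FCN (helper27): the calculus of exchanges in class Cc behind block `i`
-/

set_option autoImplicit false

namespace Pool.Agent.MVO.H27F

open Pool.Agent.Helper14_MV Pool.Agent.Helper2_MV Pool.Agent.MVO
open Pool.Agent.MVO.H35 (f2 f5 deg_psh flp_same flp_ne bl_zero_left bl_zero_right)
open Pool.Agent.MVO.H24 (move c3a c4a fr_symm psh_zero_lt le_psh)

theorem move2 (hS : SgcStmt) {ρ : FIC} (hC : MVD.Cc ρ) (x y : ℕ) (m n : ℕ) :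
    ∀ (p q : List ℕ), x ∈ p → y ∈ q →
      RR ρ (p ++ (List.replicate n y ++ (List.replicate m x ++ q)))
        (p ++ (List.replicate m x ++ (List.replicate n y ++ q))) := by
  induction n with
  | zero =>
    intro p q _ _
    simp only [List.replicate_zero, List.nil_append]
    exact RR.refl _
  | succ n ih =>
    intro p q hx hy
    have h1 := ih (p ++ [y]) q (List.mem_append_left _ hx) hy
    have h2 := move hS hC x y m p (List.replicate n y ++ q) hx (List.mem_append_right _ hy)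
    rw [List.replicate_succ]
    simp only [List.append_assoc, List.cons_append, List.nil_append] at h1 h2 ⊢
    exact ρ.trans h1 h2

theorem two_deg {k i j : ℕ} {a : ℕ → ℕ} (hi : i ≤ k) (hj : j ≤ k) (hij : i ≠ j) (h1 : 1 ≤ a i)
    (h2 : 1 ≤ a j) : 2 ≤ deg k a := by
  unfold deg
  have h3 : ∑ m ∈ ({i, j} : Finset ℕ), a m ≤ ∑ m ∈ Finset.range (k + 1), a m := by
    apply Finset.sum_le_sum_of_subset
    intro m hm
    rw [Finset.mem_insert, Finset.mem_singleton] at hm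
    rw [Finset.mem_range]
    omega
  rw [Finset.sum_pair hij] at h3
  omega

theorem flp_flp (e : ℕ → Bool) (i : ℕ) : flp (flp e i) i = e := by
  funext j
  unfold flp
  split_ifs <;> simp

theorem bt_of {ρ : FIC} {k : ℕ} {a b : ℕ → ℕ} {i : ℕ}
    (key : ∀ e : ℕ → Bool, e i = false → RR ρ (w2 k a b e) (w2 k a b (flp e i))) :
    Bt ρ k a b i := by
  intro e
  cases he : e i
  · exact key e he
  · have h3 := key (flp e i) (by rw [flp_same, he]; rfl)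
    rw [flp_flp] at h3
    exact RR.symm h3

theorem bt_zero {ρ : FIC} {k : ℕ} {a b : ℕ → ℕ} {i : ℕ} (h : a i = 0 ∨ b i = 0) :
    Bt ρ k a b i := by
  intro e
  have : w2 k a b e = w2 k a b (flp e i) := by
    unfold w2
    apply asm_congr
    intro j hj
    by_cases hji : j = i
    · subst hji
      rcases h with h0 | h0
      · rw [h0]
        exact bl_zero_left _ _ _
      · rw [h0]
        exact bl_zero_right _ _ _
    · rw [flp_ne hji]
  unfold Ex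
  rw [← this]
  exact RR.refl _

/-- the two words -/
theorem words {k i : ℕ} (a b : ℕ → ℕ) (hi : i ≤ k) (e : ℕ → Bool) (he : e i = false) :
    ∃ p q : List ℕ, w2 k a b e = p ++ (List.replicate (a i) 0 ++ (List.replicate (b i) 1 ++ q)) ∧
      w2 k a b (flp e i) = p ++ (List.replicate (b i) 1 ++ (List.replicate (a i) 0 ++ q)) ∧
      ((∃ j < i, 1 ≤ a j) → 0 ∈ p) ∧ ((∃ j ≤ k, i < j ∧ 1 ≤ a j) → 0 ∈ q) ∧
      ((∃ j ≤ k, i < j ∧ 1 ≤ b j) → 1 ∈ q) := by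
  obtain ⟨W, hW⟩ : ∃ W : ℕ → List ℕ, W = fun j => bl (a j) (b j) (e j) := ⟨_, rfl⟩
  have hm0 : ∀ j, 1 ≤ a j → 0 ∈ W j := by
    intro j hj
    rw [hW]
    show 0 ∈ bl (a j) (b j) (e j)
    unfold bl
    split_ifs
    · exact List.mem_append_right _ (List.mem_replicate.2 ⟨by omega, rfl⟩)
    · exact List.mem_append_left _ (List.mem_replicate.2 ⟨by omega, rfl⟩)
  have hm1 : ∀ j, 1 ≤ b j → 1 ∈ W j := by
    intro j hj
    rw [hW]
    show 1 ∈ bl (a j) (b j) (e j)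
    unfold bl
    split_ifs
    · exact List.mem_append_left _ (List.mem_replicate.2 ⟨by omega, rfl⟩)
    · exact List.mem_append_right _ (List.mem_replicate.2 ⟨by omega, rfl⟩)
  refine ⟨pre W i, suf W i (k - i), ?_, ?_, ?_, ?_, ?_⟩
  · have h1 : w2 k a b e = asm k W := by rw [hW]; rfl
    rw [h1, asm_split hi, hW]
    simp only [bl, he, Bool.false_eq_true, if_false, List.append_assoc]
  · have h1 : w2 k a b (flp e i) = asm k (Function.update W i (bl (a i) (b i) true)) := by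
      unfold w2
      apply asm_congr
      intro j hj
      by_cases hji : j = i
      · subst hji
        rw [Function.update_self, flp_same, he]
        rfl
      · rw [Function.update_of_ne hji, flp_ne hji, hW]
    rw [h1, asm_update hi]
    simp only [bl, if_true, List.append_assoc]
  · rintro ⟨j, hj, h⟩
    exact mem_pre.2 (Or.inr ⟨j, hj, hm0 j h⟩)
  · rintro ⟨j, hj, hij, h⟩
    exact mem_suf.2 (Or.inr ⟨j, hij, by omega, hm0 j h⟩)
  · rintro ⟨j, hj, hij, h⟩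
    exact mem_suf.2 (Or.inr ⟨j, hij, by omega, hm1 j h⟩)

/-- (N0), `0` occurs before block `i` -/
theorem n0a (hS : SgcStmt) {ρ : FIC} (hC : MVD.Cc ρ) {k : ℕ} {a b : ℕ → ℕ} {i : ℕ} (hi : i ≤ k)
    (hb : ∃ j ≤ k, i < j ∧ 1 ≤ b j) (ha : ∃ j < i, 1 ≤ a j) : Bt ρ k a b i := by
  apply bt_of
  intro e he
  obtain ⟨p, q, h1, h2, h3, -, h5⟩ := words a b hi e he
  rw [h1, h2]
  exact RR.symm (move2 hS hC 0 1 (a i) (b i) p q (h3 ha) (h5 hb))

/-- (N0), two letters of both kinds in block `i` -/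
theorem n0b (hS : SgcStmt) {ρ : FIC} (hC : MVD.Cc ρ) {k : ℕ} {a b : ℕ → ℕ} {i : ℕ} (hi : i ≤ k)
    (hb : ∃ j ≤ k, i < j ∧ 1 ≤ b j) (ha : ∃ j ≤ k, i < j ∧ 1 ≤ a j) (ha2 : 2 ≤ a i)
    (hb2 : 2 ≤ b i) : Bt ρ k a b i := by
  apply bt_of
  intro e he
  obtain ⟨p, q, h1, h2, -, h4, h5⟩ := words a b hi e he
  obtain ⟨m, hm⟩ : ∃ m, a i = m + 2 := ⟨a i - 2, by omega⟩
  obtain ⟨n, hn⟩ : ∃ n, b i = n + 2 := ⟨b i - 2, by omega⟩
  have hq0 := h4 ha
  have hq1 := h5 hb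
  rw [h1, h2, hm, hn]
  -- the last letters `0`
  have s1 := move2 hS hC 0 1 (m + 1) (n + 2) (p ++ [0]) q (List.mem_append_right _ (by simp)) hq1
  -- the first `0` over the first `1`
  have s2 := (hS ρ hC p (List.replicate (n + 1) 1 ++ (List.replicate (m + 1) 0 ++ q)) 0 1).2.1
    (Or.inr ⟨[], List.replicate n 1, List.replicate m 0 ++ q, by
      simp only [List.replicate_succ, List.nil_append, List.cons_append], fun z hz => by
      rw [List.eq_of_mem_replicate hz]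
      simp only [List.count_append, List.count_cons, List.count_replicate]
      simp
      omega⟩)
  -- over the other letters `1`
  have s3 := move hS hC 1 0 (n + 1) (p ++ [1]) (List.replicate (m + 1) 0 ++ q)
    (List.mem_append_right _ (by simp)) (List.mem_append_right _ hq0)
  have e1 : p ++ (List.replicate (m + 2) 0 ++ (List.replicate (n + 2) 1 ++ q)) =
      (p ++ [0]) ++ (List.replicate (m + 1) 0 ++ (List.replicate (n + 2) 1 ++ q)) := by
    simp [List.replicate_succ]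
  have e2 : (p ++ [0]) ++ (List.replicate (n + 2) 1 ++ (List.replicate (m + 1) 0 ++ q)) =
      p ++ 0 :: 1 :: (List.replicate (n + 1) 1 ++ (List.replicate (m + 1) 0 ++ q)) := by
    simp [List.replicate_succ]
  have e3 : p ++ 1 :: 0 :: (List.replicate (n + 1) 1 ++ (List.replicate (m + 1) 0 ++ q)) =
      p ++ [1] ++ 0 :: (List.replicate (n + 1) 1 ++ (List.replicate (m + 1) 0 ++ q)) := by
    simp
  have e4 : p ++ [1] ++ (List.replicate (n + 1) 1 ++ 0 :: (List.replicate (m + 1) 0 ++ q)) =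
      p ++ (List.replicate (n + 2) 1 ++ (List.replicate (m + 2) 0 ++ q)) := by
    simp [List.replicate_succ]
  rw [e1]
  refine ρ.trans (RR.symm s1) ?_
  rw [e2]
  refine ρ.trans s2 ?_
  rw [e3, ← e4]
  exact s3

/-- (N0) -/
theorem n0 (hS : SgcStmt) (hZ : ZfrStmt) {ρ : FIC} (hC : MVD.Cc ρ) {k : ℕ} {a b : ℕ → ℕ} {i : ℕ}
    (hi : i ≤ k) (hb : ∃ j ≤ k, i < j ∧ 1 ≤ b j)
    (h : a i = 0 ∨ (∃ j < i, 1 ≤ a j) ∨ (∃ j ≤ k, j ≠ i ∧ 1 ≤ a j ∧ 1 ≤ b j) ∨
      (2 ≤ a i ∧ 2 ≤ b i ∧ ∃ j ≤ k, i < j ∧ 1 ≤ a j)) : Bt ρ k a b i := by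
  rcases h with h | h | ⟨j, hj, hji, h1, h2⟩ | ⟨h1, h2, h3⟩
  · exact bt_zero (Or.inl h)
  · exact n0a hS hC hi hb h
  · by_cases h3 : a i = 0
    · exact bt_zero (Or.inl h3)
    · by_cases h4 : b i = 0
      · exact bt_zero (Or.inr h4)
      · exact hZ ρ hC k a b i j hi hj (Ne.symm hji) (by omega) (by omega) h1 h2
  · exact n0b hS hC hi hb h3 h1 h2

/-- the cases in which N0 does not apply -/
theorem cases0 (hS : SgcStmt) (hZ : ZfrStmt) {ρ : FIC} (hC : MVD.Cc ρ) {k : ℕ} {a b : ℕ → ℕ}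
    {i : ℕ} (hi : i ≤ k) (ha : ∃ j ≤ k, i < j ∧ 1 ≤ a j) (hb : ∃ j ≤ k, i < j ∧ 1 ≤ b j)
    (ha1 : 1 ≤ a i) (hb1 : 1 ≤ b i) : Bt ρ k a b i ∨ FR k a b i := by
  by_cases h1 : ∃ j < i, 1 ≤ a j
  · exact Or.inl (n0a hS hC hi hb h1)
  by_cases h2 : ∃ j < i, 1 ≤ b j
  · exact Or.inl (f5 (n0a hS hC hi ha h2))
  by_cases h3 : ∃ j ≤ k, j ≠ i ∧ 1 ≤ a j ∧ 1 ≤ b j
  · exact Or.inl (n0 hS hZ hC hi hb (Or.inr (Or.inr (Or.inl h3))))
  by_cases h4 : 2 ≤ a i ∧ 2 ≤ b i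
  · exact Or.inl (n0b hS hC hi hb ha h4.1 h4.2)
  right
  push Not at h1 h2 h3
  refine ⟨fun j hj => ⟨?_, ?_⟩, fun j hj hji => ?_, ha1, hb1, ?_⟩
  · have := h1 j hj
    omega
  · have := h2 j hj
    omega
  · have := h3 j hj hji
    omega
  · omega

/-- (N3) -/
theorem n3 (hS : SgcStmt) (hZ : ZfrStmt) {ρ : FIC} (hC : MVD.Cc ρ) {k : ℕ} {a b d d' : ℕ → ℕ}
    {i : ℕ} (hi : i ≤ k) (ha1 : 1 ≤ a i) (hb1 : 1 ≤ b i)
    (ha : ∃ j ≤ k, i < j ∧ 1 ≤ a j) (hb : ∃ j ≤ k, i < j ∧ 1 ≤ b j) (hB : Bt ρ k a b i) :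
    Bt ρ k (fun j => a j + d j) (fun j => b j + d' j) i := by
  have hda : 2 ≤ deg k a := by
    obtain ⟨j, hj, hij, h⟩ := ha
    exact two_deg hi hj (by omega) ha1 h
  have hdb : 2 ≤ deg k b := by
    obtain ⟨j, hj, hij, h⟩ := hb
    exact two_deg hi hj (by omega) hb1 h
  have ha' : ∃ j ≤ k, i < j ∧ 1 ≤ a j + d j := by
    obtain ⟨j, hj, hij, h⟩ := ha
    exact ⟨j, hj, hij, by omega⟩
  have hb' : ∃ j ≤ k, i < j ∧ 1 ≤ b j + d' j := by
    obtain ⟨j, hj, hij, h⟩ := hb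
    exact ⟨j, hj, hij, by omega⟩
  rcases cases0 hS hZ hC (a := fun j => a j + d j) (b := fun j => b j + d' j) hi ha' hb'
    (by show 1 ≤ a i + d i; omega) (by show 1 ≤ b i + d' i; omega) with h | hF
  · exact h
  · rcases hF.2.2.2.2 with h | h
    · exact c3a hS hC hda hi ha1 hb1 hB hF h
    · exact f5 (c3a hS hC hdb hi hb1 ha1 (f5 hB) (fr_symm hF) h)

/-- (N4) -/
theorem n4 (hS : SgcStmt) (hZ : ZfrStmt) {ρ : FIC} (hC : MVD.Cc ρ) {k k' : ℕ} {f : ℕ → ℕ}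
    {a b : ℕ → ℕ} {i : ℕ} (hf : BMap k k' f) (hi : i ≤ k) (ha1 : 1 ≤ a i) (hb1 : 1 ≤ b i)
    (h0 : ∀ j < i, a j = 0 ∧ b j = 0) (ha : ∃ j ≤ k', f i < j ∧ 1 ≤ psh k f a j)
    (hb : ∃ j ≤ k', f i < j ∧ 1 ≤ psh k f b j) (hB : Bt ρ k a b i) :
    Bt ρ k' (psh k f a) (psh k f b) (f i) := by
  have hpa : 1 ≤ psh k f a (f i) := ha1.trans (le_psh hi)
  have hpb : 1 ≤ psh k f b (f i) := hb1.trans (le_psh hi)
  have hda : 2 ≤ deg k a := by
    obtain ⟨j, hj, hij, h⟩ := ha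
    rw [← deg_psh hf]
    exact two_deg (hf.le i hi) hj (by omega) hpa h
  have hdb : 2 ≤ deg k b := by
    obtain ⟨j, hj, hij, h⟩ := hb
    rw [← deg_psh hf]
    exact two_deg (hf.le i hi) hj (by omega) hpb h
  rcases cases0 hS hZ hC (hf.le i hi) ha hb hpa hpb with h | hF
  · exact h
  · rcases hF.2.2.2.2 with h | h
    · exact c4a hS hC hf hda hi ha1 hb1 h0 hB hF h
    · exact f5 (c4a hS hC hf hdb hi hb1 ha1 (fun j hj => (h0 j hj).symm) (f5 hB) (fr_symm hF) h)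

/-- Row FCN. -/
theorem fcn (hS : SgcStmt) (hZ : ZfrStmt) : FcnStmt := by
  intro ρ hC
  exact ⟨fun k a b i _ _ hi hb h => n0 hS hZ hC hi hb h,
    fun k a a' b i h hB => f2 h hB,
    fun k a b d d' i hi ha1 hb1 _ ha hb hB => n3 hS hZ hC hi ha1 hb1 ha hb hB,
    fun k k' f a b i hf hi ha1 hb1 h0 ha hb hB => n4 hS hZ hC hf hi ha1 hb1 h0 ha hb hB,
    fun k a b i hB => f5 hB⟩

end Pool.Agent.MVO.H27F
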