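import Mathlib
import Pool.Agent.MVO.StmtsC

/-!
# Squad MVO, row SGC (helper27): single exchanges in class Cc.
-/

set_option autoImplicit false

namespace Pool.Agent.MVO.H27

open Pool.Agent.MVO Pool.Agent.Helper14_MV Pool.Agent.Helper2_MV

variable {β : FIC}

/-- The substitution of `0`, `3`, `2`, `5`. -/
def g4 (x y : ℕ) (T S : List ℕ) (c : ℕ) : List ℕ :=
  if c = 0 then [x] else if c = 3 then [y] else if c = 2 then T else if c = 5 then S else []

theorem s2_sub (h : MVD.S2 β) (x y : ℕ) (T S : List ℕ) :
    RR β (x :: (T ++ x :: y :: (S ++ [y]))) (x :: (T ++ y :: x :: (S ++ [y]))) := by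
  have h1 := RR.sub (g4 x y T S) h
  simpa [g4] using h1

theorem swap_count (p q : List ℕ) (x y z : ℕ) :
    (p ++ x :: y :: q).count z = (p ++ y :: x :: q).count z := by
  have h : (p ++ x :: y :: q).Perm (p ++ y :: x :: q) :=
    List.Perm.append_left p (List.Perm.swap y x q)
  exact h.count_eq z

theorem sgc : SgcStmt := by
  rintro β ⟨hS, hF, hZ⟩ p q x y
  refine ⟨?_, ?_, ?_⟩
  · intro hx hy
    obtain ⟨a, b, rfl⟩ := List.append_of_mem hx
    obtain ⟨s, t, rfl⟩ := List.append_of_mem hy
    have h1 := (RR.refl a).append ((s2_sub hS x y b s).append (RR.refl t))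
    simpa using h1
  · rintro (⟨l1, c, l2, rfl, hc⟩ | ⟨l1, c, l2, rfl, hc⟩)
    · exact hF p l1 c l2 x y hc
    · refine (hF p l1 c l2 y x ?_).symm
      intro z hz
      rw [swap_count]
      exact hc z hz
  · rintro (⟨l1, c, l2, rfl, hc⟩ | ⟨l1, c, l2, rfl, hc⟩)
    · have h1 := hZ l1 l2 c q x y (by
        intro z hz
        have := hc z hz
        simpa using this)
      simpa using h1
    · have h1 := (hZ l1 l2 c q y x (by
        intro z hz
        have := hc z hz
        rw [swap_count] at this
        simpa using this)).symm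
      simpa using h1

end Pool.Agent.MVO.H27
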